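import Pool.Agent.Lib_MP_4776c2.EvenGen

/-!
# Autotopism groups of semifields of even order

Let `N` be the left, middle or right nucleus of a finite semifield `S` of characteristic two,
`|S| = |N| ^ n`, and let `q` be the order of the centre, `|S| = q ^ m`. The homologies belonging to `N`
form a cyclic normal subgroup of the autotopism group; let `C` be its centraliser.

* A `2`-subgroup `P` of `C` acts freely on `S`, and its fixed elements form a vector space over `N`, so
  that `|P|` divides `n`.
* Elements of `C` of order a power of `r` are scalar over the centre, if `r` divides `q - 1` and not `m`.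
* If an element of odd prime power order, of order a power of `r`, acts nontrivially on a `2`-subgroup
  `R` of `C`, then `r` divides `2 ^ a - 1`, where `2 ^ a` is the index of its centraliser in `R`, a
  divisor of `n`.

So `C` has a normal `2`-complement by the theorem of Frobenius, under the hypothesis below, which is
void if `4` does not divide `n`.
-/

set_option autoImplicit false

namespace Pool.Agent.Results.MP_4776c2_al.EvenCriterion

open Pool.Agent.Lib_MP_4776c2

/-- Let `S` be a finite semifield of even order, `q` the order of its centre, `|S| = q ^ m`, and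
`|S| = |N| ^ n` for the left, middle or right nucleus `N`. Suppose that every odd prime that divides
`2 ^ a - 1` for some `a > 0` with `2 ^ a ∣ n` divides `q - 1`, but not `m`. Then the autotopism group of
`S` has a normal subgroup of odd order with soluble factor group. -/
theorem result (S : Type) [NonAssocRing S] [Finite S] [Nontrivial S] [NoZeroDivisors S]
    (h2 : Even (Nat.card S)) (q m n : ℕ)
    (hq : Nat.card (Subring.center S) = q) (hm : Nat.card S = q ^ m)
    (hn : Nat.card S = Nat.card (leftNucleus S) ^ n ∨ Nat.card S = Nat.card (middleNucleus S) ^ n ∨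
      Nat.card S = Nat.card (rightNucleus S) ^ n)
    (h : ∀ r a : ℕ, r.Prime → Odd r → 0 < a → 2 ^ a ∣ n → r ∣ 2 ^ a - 1 → r ∣ q - 1 ∧ ¬ r ∣ m) :
    ∃ (O : Subgroup (autotopismGroup S)) (_ : O.Normal), Odd (Nat.card O) ∧
      Group.IsSolvable (autotopismGroup S ⧸ O) := by
  have h2p : Fact (Nat.Prime 2) := ⟨Nat.prime_two⟩
  have hS : ∀ x : S, 2 • x = 0 := char_of_dvd 2 (even_iff_two_dvd.1 h2)
  have h' : ∀ r a : ℕ, r.Prime → r ≠ 2 → 0 < a → 2 ^ a ∣ n → r ∣ 2 ^ a - 1 →
      r ∣ q * (q - 1) ∧ ¬ r ∣ m := by
    intro r a hr hr2 ha ha1 ha2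
    obtain ⟨h3, h4⟩ := h r a hr (hr.odd_of_ne_two hr2) ha ha1 ha2
    exact ⟨h3.mul_left q, h4⟩
  rcases hn with hn | hn | hn
  · obtain ⟨O, hO, hodd, hsol⟩ := even_general (pV S).ker cyclic_l q m n hq hm
      (fun P hP hc => dvd_left 2 hS P hP hc n hn) lin_left h'
    exact ⟨O, hO, hodd, hsol⟩
  · obtain ⟨O, hO, hodd, hsol⟩ := even_general (pW S).ker cyclic_m q m n hq hm
      (fun P hP hc => dvd_middle 2 hS P hP hc n hn) lin_middle h'
    exact ⟨O, hO, hodd, hsol⟩
  · obtain ⟨O, hO, hodd, hsol⟩ := even_general (pU S).ker cyclic_r q m n hq hm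
      (fun P hP hc => dvd_right 2 hS P hP hc n hn) lin_right h'
    exact ⟨O, hO, hodd, hsol⟩

end Pool.Agent.Results.MP_4776c2_al.EvenCriterion
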