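import Pool.Agent.Lib_MP_4776c2.Iso

/-!
# `p`-groups of autotopisms of a finite semifield of characteristic `p` act freely

Let `S` be a finite semifield of characteristic `p` and `P` a `p`-group of autotopisms of `S`. After
passing to an isotope, `P` is a group of automorphisms. For an automorphism `σ` of order `p` put
`N = σ - 1`; if `σ e = e + 1` and `R` is the right multiplication with `e`, then
`N ^ k R = R N ^ k + k N ^ (k - 1) σ`, which forces all Jordan blocks of `σ` to have size `p`. If `σ`
and `τ` are commuting automorphisms of order `p` with the same fixed elements and `τ e = e + c`, an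
averaging argument gives an endomorphism `A` with `σ A = (A + 1) σ` and `τ A = (A + Γ) τ`, where `Γ`
commutes with `A` and acts on the fixed elements as the left multiplication with `c`; comparing
`A ^ p - A` on the fixed elements gives `c ^ p = c`, so that `c` lies in the prime field and `τ` is a
power of `σ`. Induction on the order of `P` finishes the proof.
-/

set_option autoImplicit false

namespace Pool.Agent.Results.MP_4776c2_al.FreePGroups

open Pool.Agent.Lib_MP_4776c2

/-- Let `S` be a finite semifield of characteristic `p`, and let `P` be a `p`-group of autotopisms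
`(F, G, H)` of `S`. Then the number of elements of `S` fixed by all `F`, raised to the power `|P|`, is
`|S|`, and the same holds for the second and the third components. -/
theorem result (p : ℕ) [Fact p.Prime] (S : Type) [NonAssocRing S] [Finite S] [Nontrivial S]
    [NoZeroDivisors S] (hS : ∀ x : S, p • x = 0)
    (P : Subgroup (Equiv.Perm S × Equiv.Perm S × Equiv.Perm S)) (hp : IsPGroup p P)
    (hP : ∀ t ∈ P, (∀ x y : S, t.1 (x + y) = t.1 x + t.1 y) ∧
      (∀ x y : S, t.2.1 (x + y) = t.2.1 x + t.2.1 y) ∧
      (∀ x y : S, t.2.2 (x + y) = t.2.2 x + t.2.2 y) ∧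
      (∀ x y : S, t.1 x * t.2.1 y = t.2.2 (x * y))) :
    Nat.card {x : S | ∀ t ∈ P, t.1 x = x} ^ Nat.card P = Nat.card S ∧
    Nat.card {x : S | ∀ t ∈ P, t.2.1 x = x} ^ Nat.card P = Nat.card S ∧
    Nat.card {x : S | ∀ t ∈ P, t.2.2 x = x} ^ Nat.card P = Nat.card S :=
  free_autotopism p hS P hP hp

end Pool.Agent.Results.MP_4776c2_al.FreePGroups
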