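import Pool.Agent.Lib_MP_4776c2.Centre

/-!
# Autotopism groups of semifields of odd order

Let `q` be the order of the centre of a finite semifield `S` of odd order and `|S| = q ^ m`. The
autotopisms that are linear over the centre form a normal subgroup `C` with abelian factor group. It is
shown that, in the cases below, an element of odd order of `C` that normalises a `2`-subgroup of `C`
centralises it, so that `C` has a normal `2`-complement (Frobenius).

* Elements of `C` of order a power of `r` are scalar, if the prime `r` divides `q (q - 1)` and not `m`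
  (determinants of the multiplications, if `r` divides `q - 1`; free action of `p`-groups, if `r`
  divides `q`).
* If `y` has order a power of `r` and acts nontrivially on the `2`-group `R`, `R` minimal, then
  `|R / Z(R)| = 2 ^ n` with `r ∣ 2 ^ n - 1`, where `2 ^ n ∣ m`, or `n = 2 a` and `2 ^ a ∣ m`.
* If `q = 1 mod 4` and `m = 2 mod 4`, nonscalar linear involutions have determinant `-1` on each of the
  three spaces, which excludes the only remaining case `r = 3`, `n = 2`.
-/

set_option autoImplicit false

namespace Pool.Agent.Results.MP_4776c2_al.OddCriterion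

open Pool.Agent.Lib_MP_4776c2

/-- Let `S` be a finite semifield of odd order, `q` the order of its centre and `|S| = q ^ m`. Suppose
that `q = 1 mod 4` and `4` does not divide `m`, or that every odd prime that divides `4 ^ a - 1` for some
`a > 0` with `2 ^ a ∣ m` divides `q (q - 1)`, but not `m`. Then the autotopism group of `S` has a normal
subgroup of odd order with soluble factor group. -/
theorem result (S : Type) [NonAssocRing S] [Finite S] [Nontrivial S] [NoZeroDivisors S]
    (ho : Odd (Nat.card S)) (q m : ℕ)
    (hq : Nat.card (Subring.center S) = q) (hm : Nat.card S = q ^ m)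
    (h : ∀ r a : ℕ, r.Prime → Odd r → 0 < a → 2 ^ a ∣ m → r ∣ 4 ^ a - 1 →
      (q % 4 = 1 ∧ ¬ 4 ∣ m) ∨ (r ∣ q * (q - 1) ∧ ¬ r ∣ m)) :
    ∃ (O : Subgroup (autotopismGroup S)) (_ : O.Normal), Odd (Nat.card O) ∧
      Group.IsSolvable (autotopismGroup S ⧸ O) := by
  obtain ⟨K, _, _, _, _, _, hK⟩ := exists_field S
  have hKq : Nat.card K = q := hK.trans hq
  have hq2 : 2 ≤ q := by rw [← hKq]; exact Finite.one_lt_card
  have hfr : Module.finrank K S = m := by
    have h1 : Nat.card S = q ^ Module.finrank K S := by
      rw [← hKq]; exact Module.natCard_eq_pow_finrank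
    rw [hm] at h1
    exact (Nat.pow_right_injective hq2 h1).symm
  have hm0 : m ≠ 0 := by
    rintro rfl
    rw [pow_zero] at hm
    have := Finite.one_lt_card (α := S)
    omega
  have key : FrobHyp (LG K S) 2 := by
    have hodd : (2 : K) ≠ 0 := by
      intro h2
      rw [← Nat.not_even_iff_odd] at ho
      apply ho
      rw [even_iff_two_dvd, hm, ← hKq]
      apply dvd_pow _ hm0
      have h1 : addOrderOf (1 : K) = 2 := by
        have h2p : Fact (Nat.Prime 2) := ⟨Nat.prime_two⟩
        exact addOrderOf_eq_prime (by rw [nsmul_eq_mul, mul_one]; exact_mod_cast h2) one_ne_zero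
      rw [← h1]
      exact addOrderOf_dvd_natCard (1 : K)
    by_cases h4 : q % 4 = 1 ∧ ¬ 4 ∣ m
    · exact frobHyp_LG (by rw [hKq]; exact h4.1) (by rw [hfr]; exact h4.2)
    · apply frobHyp_odd hodd
      intro r a hr hr2 ha ha1 ha2
      rw [hKq, hfr]
      rw [hfr] at ha1
      exact (h r a hr (hr.odd_of_ne_two hr2) ha ha1 ha2).resolve_left h4
  obtain ⟨O, hO, hodd, hsol⟩ := odd_by_solvable_centre key
  exact ⟨O, hO, hodd, hsol⟩

end Pool.Agent.Results.MP_4776c2_al.OddCriterion
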