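import Pool.Agent.Lib_MP_4776c2.Sect

/-!
# Primes that do not divide the orders of the nonabelian composition factors

Let `q` be the order of the centre of a finite semifield `S`, `|S| = q ^ m`, and let `r` be a prime
that divides `q (q - 1)` and not `m`. Let `(F, G, H)` be an autotopism of order a power of `r`, linear
over the centre.

* If `r` divides `q - 1`, then `F` has an eigenvector over the centre. For eigenvectors `u`, `w` of `F`
  with eigenvalues `a`, `b` the relations `H L_u = a L_u G`, `H L_w = b L_w G` for the left
  multiplications give `det H = a ^ m det G = b ^ m det G`, so that `a = b`, as `r` does not divide `m`;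
  this is applied to the powers of `F`, and to `G`, and shows that `F` and `G` are scalar.
* If `r` divides `q`, then `(F, G, H) = 1`, since the `r`-groups of autotopisms act freely.

So these elements are central in the group of all linear autotopisms, whose factor group is abelian.
-/

set_option autoImplicit false

namespace Pool.Agent.Results.MP_4776c2_al.PrimesOfCentre

open Pool.Agent.Lib_MP_4776c2

/-- The group `G` has subgroups `Y ⊴ X` such that `X / Y` is simple and not abelian and `r` divides
its order. -/
def InSimpleSection (G : Type) [Group G] (r : ℕ) : Prop :=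
  ∃ (X : Subgroup G) (Y : Subgroup X) (_ : Y.Normal), IsSimpleGroup (X ⧸ Y) ∧
    (¬ ∀ a b : X ⧸ Y, a * b = b * a) ∧ r ∣ Nat.card (X ⧸ Y)

/-- Let `S` be a finite semifield with centre of order `q`, let `|S| = q ^ m`, and let `r` be a prime
that divides `q (q - 1)` and not `m`. Then `r` does not divide the order of any nonabelian simple
section of the autotopism group of `S`. -/
theorem result (S : Type) [NonAssocRing S] [Finite S] [Nontrivial S] [NoZeroDivisors S]
    (q m : ℕ) (hq : Nat.card (Subring.center S) = q) (hm : Nat.card S = q ^ m)
    (r : ℕ) (hr : r.Prime) (hrq : r ∣ q * (q - 1)) (hrm : ¬ r ∣ m) :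
    ¬ InSimpleSection (autotopismGroup S) r := by
  rintro ⟨X, Y, hY, hs, hna, hdvd⟩
  obtain ⟨K, _, _, _, _, _, hK⟩ := exists_field S
  have hKq : Nat.card K = q := hK.trans hq
  have hq2 : 2 ≤ q := by rw [← hKq]; exact Finite.one_lt_card
  have hfr : Module.finrank K S = m := by
    have h1 : Nat.card S = q ^ Module.finrank K S := by
      rw [← hKq]; exact Module.natCard_eq_pow_finrank
    rw [hm] at h1
    exact (Nat.pow_right_injective hq2 h1).symm
  have hrK : r ∣ Nat.card K * (Nat.card K - 1) := by rw [hKq]; exact hrq
  have hrm' : ¬ r ∣ Module.finrank K S := by rw [hfr]; exact hrm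
  have hn : (LinC S).Normal := LinC_normal S
  exact section_lemma (LinC S) comm_mem_LinC r hr
    (fun t ht k hk c hc => central_of_LinC K r hr hrK hrm' t ht k hk c hc) X Y hs hna hdvd

end Pool.Agent.Results.MP_4776c2_al.PrimesOfCentre
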